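import Pool.Agent.Helper67.NX2.DefsB

/-!
# Project NX2, module B8: the dense model has the same sums over progressions
-/

set_option autoImplicit false

open Finset
open scoped BigOperators ComplexConjugate

namespace Pool.Agent.Helper67.NX2

open Pool.Agent.Helper57.NX

noncomputable section

namespace B8

/-! ### periodic functions -/

theorem sum_range_mul {f : ℕ → ℝ} (M n : ℕ) :
    ∑ x ∈ range (M * n), f x = ∑ t ∈ range n, ∑ r ∈ range M, f (r + M * t) := by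
  induction n with
  | zero => simp
  | succ n ih =>
    rw [Nat.mul_succ, sum_range_add, ih, sum_range_succ]
    congr 1
    exact sum_congr rfl fun r _ => by rw [Nat.add_comm]

theorem per_mul {M : ℕ} {f : ℕ → ℝ} (hf : ∀ x, f (x + M) = f x) (t x : ℕ) :
    f (x + M * t) = f x := by
  induction t with
  | zero => simp
  | succ t ih => rw [Nat.mul_succ, ← Nat.add_assoc, hf, ih]

theorem per_mod {M : ℕ} {f : ℕ → ℝ} (hf : ∀ x, f (x + M) = f x) (x : ℕ) :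
    f (x % M) = f x := by
  conv_rhs => rw [← Nat.mod_add_div x M]
  exact (per_mul hf _ _).symm

theorem sum_shift {M : ℕ} {f : ℕ → ℝ} (hf : ∀ x, f (x + M) = f x) (u : ℕ) :
    ∑ x ∈ range M, f (u + x) = ∑ x ∈ range M, f x := by
  induction u with
  | zero => simp
  | succ u ih =>
    rw [← ih]
    have h1 := sum_range_succ (fun x => f (u + x)) M
    have h2 := sum_range_succ' (fun x => f (u + x)) M
    rw [h1] at h2
    have h3 : ∀ x, f (u + (x + 1)) = f (u + 1 + x) := fun x => by congr 1; ring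
    simp only [h3, Nat.add_zero] at h2
    rw [hf] at h2
    linarith

/-- sums of a periodic function with average `0` over an interval -/
theorem abs_sum_le {L : ℕ} (hL : 1 ≤ L) {f : ℕ → ℝ} (hf : ∀ x, f (x + L) = f x) {B : ℝ}
    (hB : ∀ x, |f x| ≤ B) (h0 : ∑ x ∈ range L, f x = 0) (u N : ℕ) :
    |∑ x ∈ Ico u (u + N), f x| ≤ L * B := by
  have hB0 : 0 ≤ B := (abs_nonneg _).trans (hB 0)
  rw [sum_Ico_eq_sum_range, Nat.add_sub_cancel_left]
  have h1 : N = L * (N / L) + N % L := (Nat.div_add_mod N L).symm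
  rw [h1, sum_range_add, sum_range_mul]
  have h2 : ∑ t ∈ range (N / L), ∑ r ∈ range L, f (u + (r + L * t)) = 0 := by
    apply sum_eq_zero
    intro t _
    have : ∀ r, f (u + (r + L * t)) = f (u + r) := by
      intro r
      rw [← Nat.add_assoc, per_mul hf]
    simp only [this]
    rw [sum_shift hf, h0]
  rw [h2, zero_add]
  have h3 : |∑ x ∈ range (N % L), f (u + (L * (N / L) + x))| ≤ ∑ x ∈ range (N % L), B :=
    (abs_sum_le_sum_abs _ _).trans (sum_le_sum fun x _ => hB _)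
  refine h3.trans ?_
  rw [sum_const, card_range, nsmul_eq_mul]
  have h4 : N % L ≤ L := (Nat.mod_lt _ hL).le
  have : ((N % L : ℕ) : ℝ) ≤ L := by exact_mod_cast h4
  exact mul_le_mul_of_nonneg_right this hB0

/-- coprime periods, the second factor has average `0` -/
theorem sum_coprime_zero {M P : ℕ} (hP : 1 ≤ P) (hc : Nat.Coprime M P)
    {g h : ℕ → ℝ} (hg : ∀ x, g (x + M) = g x) (hh : ∀ x, h (x + P) = h x)
    (h0 : ∑ x ∈ range P, h x = 0) : ∑ x ∈ range (M * P), g x * h x = 0 := by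
  rw [sum_range_mul, sum_comm]
  apply sum_eq_zero
  intro r _
  have h1 : ∀ t, g (r + M * t) * h (r + M * t) = g r * h ((r + M * t) % P) := by
    intro t
    rw [per_mul hg, per_mod hh]
  simp only [h1]
  rw [← mul_sum]
  have hinj : Set.InjOn (fun t => (r + M * t) % P) (range P : Finset ℕ) := by
    intro t ht t' ht' heq
    have e1 : r + M * t ≡ r + M * t' [MOD P] := heq
    have e2 : M * t ≡ M * t' [MOD P] := Nat.ModEq.add_left_cancel' r e1
    have e3 : t ≡ t' [MOD P] := Nat.ModEq.cancel_left_of_coprime hc.symm e2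
    have a1 : t < P := by simpa using ht
    have a2 : t' < P := by simpa using ht'
    rwa [Nat.ModEq, Nat.mod_eq_of_lt a1, Nat.mod_eq_of_lt a2] at e3
  have himg : (range P).image (fun t => (r + M * t) % P) = range P := by
    apply eq_of_subset_of_card_le
    · intro x hx
      obtain ⟨t, _, rfl⟩ := mem_image.mp hx
      exact mem_range.mpr (Nat.mod_lt _ hP)
    · rw [card_image_of_injOn hinj]
  have h2 : ∑ t ∈ range P, h ((r + M * t) % P) = ∑ x ∈ range P, h x := by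
    conv_rhs => rw [← himg]
    rw [sum_image hinj]
  rw [h2, h0, mul_zero]

/-- the factor at one modulus -/
def uf (P : ℕ) (y x : ℕ) : ℝ := if y ≡ x [MOD P] then (P : ℝ) else 0

theorem uf_per {P M : ℕ} (h : P ∣ M) (y x : ℕ) : uf P y (x + M) = uf P y x := by
  unfold uf
  have : (y ≡ x + M [MOD P]) ↔ (y ≡ x [MOD P]) := by
    have h1 : x + M ≡ x [MOD P] := by
      conv_rhs => rw [← Nat.add_zero x]
      exact Nat.ModEq.add_left x ((Nat.modEq_zero_iff_dvd).mpr h)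
    exact ⟨fun h2 => h2.trans h1, fun h2 => h2.trans h1.symm⟩
  simp only [this]

theorem uf_nonneg (P y x : ℕ) : 0 ≤ uf P y x := by
  unfold uf; split_ifs <;> positivity

theorem uf_le (P y x : ℕ) : uf P y x ≤ P := by
  unfold uf; split_ifs <;> simp

theorem abs_uf_sub_one {P : ℕ} (hP : 1 ≤ P) (y x : ℕ) : |uf P y x - 1| ≤ P := by
  have h1 := uf_nonneg P y x
  have h2 := uf_le P y x
  have h3 : (1 : ℝ) ≤ P := by exact_mod_cast hP
  rw [abs_le]
  constructor <;> linarith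

theorem sum_uf {P : ℕ} (hP : 1 ≤ P) (y : ℕ) : ∑ x ∈ range P, (uf P y x - 1) = 0 := by
  rw [sum_sub_distrib]
  have h1 : ∑ x ∈ range P, uf P y x = P := by
    rw [sum_eq_single (y % P)]
    · unfold uf
      rw [if_pos (Nat.mod_modEq y P).symm]
    · intro x hx hne
      unfold uf
      rw [if_neg]
      intro h
      apply hne
      have hx' := mem_range.mp hx
      have h' : y % P = x % P := h
      rw [h', Nat.mod_eq_of_lt hx']
    · intro h
      exact absurd (mem_range.mpr (Nat.mod_lt _ hP)) h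
  rw [h1]
  simp

/-- the kernel -/
def kf (K r1 : ℕ) (S : Finset ℕ) (y x : ℕ) : ℝ := uf K y x * ∏ p ∈ S, (uf (p ^ r1) y x - 1)

theorem DS_eq (F : ℕ → ℝ) (K r1 b j : ℕ) (S : Finset ℕ) (x : ℕ) :
    DS F K r1 b j S x (fun _ => x) = (∑ y ∈ bl b j, F y * kf K r1 S y x) / 2 ^ b := by
  unfold DS kf uf
  congr 1
  refine sum_congr rfl fun y _ => ?_
  push_cast
  ring

theorem abs_kf_le {K r1 : ℕ} {S : Finset ℕ} (hS : ∀ p ∈ S, 1 ≤ p) (y x : ℕ) :
    |kf K r1 S y x| ≤ ((K * ∏ p ∈ S, p ^ r1 : ℕ) : ℝ) := by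
  unfold kf
  rw [abs_mul, abs_of_nonneg (uf_nonneg _ _ _), abs_prod]
  push_cast
  apply mul_le_mul (uf_le _ _ _) _ (prod_nonneg fun _ _ => abs_nonneg _) (by positivity)
  apply prod_le_prod (fun _ _ => abs_nonneg _)
  intro p hp
  have := abs_uf_sub_one (P := p ^ r1) (Nat.one_le_pow _ _ (hS p hp)) y x
  simpa using this

/-- the kernel of a set with a prime not dividing `q` averages to `0` -/
theorem abs_sum_kf_le {K r1 q : ℕ} (hK : 1 ≤ K) (hq : 1 ≤ q) {S : Finset ℕ}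
    (hS : ∀ p ∈ S, p.Prime ∧ ¬ p ∣ K) {p0 : ℕ} (hp0 : p0 ∈ S) (hp0q : ¬ p0 ∣ q)
    (y a u N : ℕ) :
    |∑ x ∈ Ico u (u + N), (if x % q = a then kf K r1 S y x else 0)| ≤
      ((q * (K * ∏ p ∈ S, p ^ r1) : ℕ) : ℝ) * ((K * ∏ p ∈ S, p ^ r1 : ℕ) : ℝ) := by
  set T := S.erase p0 with hT
  have hprod : ∏ p ∈ S, p ^ r1 = (∏ p ∈ T, p ^ r1) * p0 ^ r1 := by
    rw [hT, prod_erase_mul _ _ hp0]
  have hpp : ∀ p ∈ S, 1 ≤ p := fun p hp => (hS p hp).1.one_le
  have hpos : 1 ≤ ∏ p ∈ S, p ^ r1 := Nat.one_le_iff_ne_zero.mpr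
    (prod_ne_zero_iff.mpr fun p hp => pow_ne_zero _ (hS p hp).1.ne_zero)
  have hP0 : 1 ≤ p0 ^ r1 := Nat.one_le_pow _ _ (hpp p0 hp0)
  apply abs_sum_le (L := q * (K * ∏ p ∈ S, p ^ r1)) (Nat.mul_pos hq (Nat.mul_pos hK hpos))
  · intro x
    have h1 : (x + q * (K * ∏ p ∈ S, p ^ r1)) % q = x % q := by simp
    rw [h1]
    have h2 : kf K r1 S y (x + q * (K * ∏ p ∈ S, p ^ r1)) = kf K r1 S y x := by
      unfold kf
      rw [uf_per (⟨q * ∏ p ∈ S, p ^ r1, by ring⟩ : K ∣ _)]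
      congr 1
      refine prod_congr rfl fun p hp => ?_
      rw [uf_per ((dvd_prod_of_mem (fun p => p ^ r1) hp).trans ⟨q * K, by ring⟩ : p ^ r1 ∣ _)]
    rw [h2]
  · intro x
    split_ifs
    · exact abs_kf_le hpp y x
    · rw [abs_zero]; positivity
  · have e1 : q * (K * ∏ p ∈ S, p ^ r1) = (q * (K * ∏ p ∈ T, p ^ r1)) * p0 ^ r1 := by
      rw [hprod]; ring
    rw [e1]
    have e2 : ∀ x, (if x % q = a then kf K r1 S y x else 0) =
        (if x % q = a then kf K r1 T y x else 0) * (uf (p0 ^ r1) y x - 1) := by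
      intro x
      split_ifs
      · unfold kf
        rw [hT, mul_assoc, prod_erase_mul _ _ hp0]
      · rw [zero_mul]
    simp only [e2]
    apply sum_coprime_zero hP0
    · apply Nat.Coprime.pow_right
      apply Nat.Coprime.mul_left
      · exact ((hS p0 hp0).1.coprime_iff_not_dvd.mpr hp0q).symm
      · apply Nat.Coprime.mul_left
        · exact ((hS p0 hp0).1.coprime_iff_not_dvd.mpr (hS p0 hp0).2).symm
        · apply Nat.Coprime.prod_left
          intro p hp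
          apply Nat.Coprime.pow_left
          have h1 := mem_erase.mp hp
          exact (Nat.coprime_primes (hS p h1.2).1 (hS p0 hp0).1).mpr h1.1
    · intro x
      have h1 : (x + q * (K * ∏ p ∈ T, p ^ r1)) % q = x % q := by simp
      rw [h1]
      have h2 : kf K r1 T y (x + q * (K * ∏ p ∈ T, p ^ r1)) = kf K r1 T y x := by
        unfold kf
        rw [uf_per (⟨q * ∏ p ∈ T, p ^ r1, by ring⟩ : K ∣ _)]
        congr 1
        refine prod_congr rfl fun p hp => ?_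
        rw [uf_per ((dvd_prod_of_mem (fun p => p ^ r1) hp).trans ⟨q * K, by ring⟩ : p ^ r1 ∣ _)]
      rw [h2]
    · intro x
      rw [uf_per dvd_rfl]
    · exact sum_uf hP0 y

/-- expansion of the product -/
theorem sum_powerset_kf (K r1 : ℕ) {T : Finset ℕ} (hT : ∀ p ∈ T, p.Prime ∧ ¬ p ∣ K) (y x : ℕ) :
    ∑ S ∈ T.powerset, kf K r1 S y x = uf (K * ∏ p ∈ T, p ^ r1) y x := by
  unfold kf
  rw [← mul_sum, ← prod_add_one]
  have e : ∏ p ∈ T, (uf (p ^ r1) y x - 1 + 1) = ∏ p ∈ T, uf (p ^ r1) y x :=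
    prod_congr rfl fun p _ => by ring
  rw [e]
  clear e
  induction T using Finset.induction_on with
  | empty => simp
  | insert p T hp ih =>
    have ih' := ih fun p' hp' => hT p' (mem_insert_of_mem hp')
    rw [prod_insert hp, prod_insert hp]
    have hc : Nat.Coprime (p ^ r1) (K * ∏ p ∈ T, p ^ r1) := by
      apply Nat.Coprime.pow_left
      apply Nat.Coprime.mul_right
      · exact (hT p (mem_insert_self _ _)).1.coprime_iff_not_dvd.mpr (hT p (mem_insert_self _ _)).2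
      · apply Nat.Coprime.prod_right
        intro p' hp'
        apply Nat.Coprime.pow_right
        apply (Nat.coprime_primes (hT p (mem_insert_self _ _)).1
          (hT p' (mem_insert_of_mem hp')).1).mpr
        rintro rfl
        exact hp hp'
    have e1 : K * (p ^ r1 * ∏ p ∈ T, p ^ r1) = p ^ r1 * (K * ∏ p ∈ T, p ^ r1) := by ring
    have e2 : uf K y x * (uf (p ^ r1) y x * ∏ p ∈ T, uf (p ^ r1) y x) =
      uf (p ^ r1) y x * (uf K y x * ∏ p ∈ T, uf (p ^ r1) y x) := by ring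
    rw [e1, e2, ih']
    unfold uf
    rw [ite_zero_mul_ite_zero]
    have h1 := Nat.modEq_and_modEq_iff_modEq_mul (a := y) (b := x) hc
    simp only [h1]
    push_cast
    rfl

/-- number of small subsets -/
theorem card_small_le (r0 R : ℕ) (hR : 2 ≤ R) (PP : Finset ℕ) (hPP : ∀ p ∈ PP, p.Prime ∧ p ≤ R) :
    (PP.powerset.filter (fun S => S.card ≤ r0)).card ≤ R ^ (2 * r0 + 1) := by
  have hc : PP.card ≤ R := by
    have : PP ⊆ Icc 1 R := by
      intro p hp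
      exact mem_Icc.mpr ⟨(hPP p hp).1.one_le, (hPP p hp).2⟩
    simpa using card_le_card this
  have h1 : PP.powerset.filter (fun S => S.card ≤ r0) ⊆
      (range (r0 + 1)).biUnion fun i => PP.powersetCard i := by
    intro S hS
    rw [mem_filter, mem_powerset] at hS
    rw [mem_biUnion]
    exact ⟨S.card, mem_range.mpr (by omega), mem_powersetCard.mpr ⟨hS.1, rfl⟩⟩
  refine (card_le_card h1).trans (card_biUnion_le.trans ?_)
  have h2 : ∀ i ∈ range (r0 + 1), (PP.powersetCard i).card ≤ R ^ r0 := by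
    intro i hi
    rw [card_powersetCard]
    refine (Nat.choose_le_pow _ _).trans ?_
    exact (Nat.pow_le_pow_left hc i).trans (Nat.pow_le_pow_right (by omega)
      (by have := mem_range.mp hi; omega))
  refine (sum_le_sum h2).trans ?_
  rw [sum_const, card_range, smul_eq_mul]
  have h3 : r0 + 1 ≤ R ^ (r0 + 1) :=
    (Nat.lt_two_pow_self.le.trans (Nat.pow_le_pow_left hR _))
  calc (r0 + 1) * R ^ r0 ≤ R ^ (r0 + 1) * R ^ r0 := Nat.mul_le_mul_right _ h3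
    _ = R ^ (2 * r0 + 1) := by rw [← pow_add]; congr 1; ring

theorem prod_le {r0 r1 R : ℕ} (hR : 1 ≤ R) {S : Finset ℕ} (hS : ∀ p ∈ S, p ≤ R)
    (hc : S.card ≤ r0) : ∏ p ∈ S, p ^ r1 ≤ R ^ (r0 * r1) := by
  calc ∏ p ∈ S, p ^ r1 ≤ ∏ p ∈ S, R ^ r1 := prod_le_prod' fun p hp => Nat.pow_le_pow_left (hS p hp) _
    _ = R ^ (r1 * S.card) := by rw [prod_const, ← pow_mul]
    _ ≤ R ^ (r0 * r1) := by
      apply Nat.pow_le_pow_right hR
      rw [Nat.mul_comm]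
      exact Nat.mul_le_mul_right _ hc

theorem bl_eq (b j : ℕ) : bl b j = Ico (2 ^ b * j) (2 ^ b * j + 2 ^ b) := by
  unfold bl
  rw [Nat.mul_succ]

theorem bl_div {b j x : ℕ} (hx : x ∈ bl b j) : x / 2 ^ b = j := by
  unfold bl at hx
  rw [mem_Ico] at hx
  apply Nat.div_eq_of_lt_le
  · rw [Nat.mul_comm]; exact hx.1
  · rw [Nat.mul_comm]; exact hx.2

theorem bl_card (b j : ℕ) : ((bl b j).card : ℝ) = 2 ^ b := by
  rw [bl_eq, Nat.card_Ico, Nat.add_sub_cancel_left]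
  push_cast
  rfl

theorem bl_sum_abs {F : ℕ → ℝ} {B0 : ℝ} (hF : ∀ x, |F x| ≤ B0) (b j : ℕ) {Θ : ℕ → ℝ} {B : ℝ}
    (hΘ : ∀ y, |Θ y| ≤ B) : |(∑ y ∈ bl b j, F y * Θ y) / 2 ^ b| ≤ B0 * B := by
  rw [abs_div, abs_of_pos (by positivity : (0:ℝ) < 2 ^ b), div_le_iff₀ (by positivity)]
  refine (abs_sum_le_sum_abs _ _).trans ?_
  have h : ∀ y ∈ bl b j, |F y * Θ y| ≤ B0 * B := by
    intro y _
    rw [abs_mul]
    exact mul_le_mul (hF y) (hΘ y) (abs_nonneg _) ((abs_nonneg _).trans (hF y))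
  refine (sum_le_sum h).trans ?_
  rw [sum_const, nsmul_eq_mul, bl_card]
  exact le_of_eq (by ring)

/-- the sum over a progression of `DS` -/
theorem sum_DS (F : ℕ → ℝ) (K r1 b j q a : ℕ) (S : Finset ℕ) :
    ∑ x ∈ (bl b j).filter (fun x => x % q = a), DS F K r1 b j S x (fun _ => x) =
      (∑ y ∈ bl b j, F y * ∑ x ∈ bl b j, (if x % q = a then kf K r1 S y x else 0)) / 2 ^ b := by
  rw [sum_filter]
  have h1 : ∀ x, (if x % q = a then DS F K r1 b j S x (fun _ => x) else 0) =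
      (∑ y ∈ bl b j, F y * (if x % q = a then kf K r1 S y x else 0)) / 2 ^ b := by
    intro x
    split_ifs
    · exact DS_eq F K r1 b j S x
    · simp
  simp only [h1]
  rw [← sum_div, sum_comm]
  congr 1
  exact sum_congr rfl fun y _ => by rw [mul_sum]

theorem abs_sum_DS_le {F : ℕ → ℝ} {B0 : ℝ} (hF : ∀ x, |F x| ≤ B0) {K r0 r1 R q : ℕ} (b j : ℕ)
    (hK : 1 ≤ K) (hR : 1 ≤ R) (hq : 1 ≤ q) (hqR : q ≤ R) {S : Finset ℕ}
    (hS : ∀ p ∈ S, p.Prime ∧ p ≤ R ∧ ¬ p ∣ K) (hc : S.card ≤ r0) {p0 : ℕ} (hp0 : p0 ∈ S)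
    (hp0q : ¬ p0 ∣ q) (a : ℕ) :
    |∑ x ∈ (bl b j).filter (fun x => x % q = a), DS F K r1 b j S x (fun _ => x)| ≤
      B0 * ((K ^ 2 * R ^ (2 * r0 * r1 + 1) : ℕ) : ℝ) := by
  rw [sum_DS]
  apply bl_sum_abs hF b j
  intro y
  rw [bl_eq]
  refine (abs_sum_kf_le hK hq (fun p hp => ⟨(hS p hp).1, (hS p hp).2.2⟩) hp0 hp0q y a _ _).trans ?_
  have h1 : ∏ p ∈ S, p ^ r1 ≤ R ^ (r0 * r1) := prod_le hR (fun p hp => (hS p hp).2.1) hc
  have h2 : q * (K * ∏ p ∈ S, p ^ r1) * (K * ∏ p ∈ S, p ^ r1) ≤ K ^ 2 * R ^ (2 * r0 * r1 + 1) := by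
    calc q * (K * ∏ p ∈ S, p ^ r1) * (K * ∏ p ∈ S, p ^ r1)
        ≤ R * (K * R ^ (r0 * r1)) * (K * R ^ (r0 * r1)) := by gcongr
      _ = _ := by
        have : R ^ (2 * r0 * r1 + 1) = R * (R ^ (r0 * r1) * R ^ (r0 * r1)) := by
          rw [← pow_add, pow_succ, Nat.mul_comm]
          congr 2
          ring
        rw [this]; ring
  exact_mod_cast h2

theorem total_le {B0 : ℝ} (hB0 : 0 ≤ B0) {K r0 r1 R q : ℕ} (hK : 1 ≤ K)
    (hqR : q ≤ R) {f : ℕ → ℝ}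
    (hf : ∀ a ∈ range q, |f a| ≤ B0 * ((R ^ (2 * r0 + 2) * (K ^ 2 * R ^ (2 * r0 * r1 + 1)) : ℕ) : ℝ)) :
    ∑ a ∈ range q, |f a| ≤ B0 * ((K * R : ℕ) : ℝ) ^ (2 * r0 * r1 + 2 * r0 + 4) := by
  refine (sum_le_sum hf).trans ?_
  rw [sum_const, card_range, nsmul_eq_mul]
  have h1 : q * (R ^ (2 * r0 + 2) * (K ^ 2 * R ^ (2 * r0 * r1 + 1))) ≤
      (K * R) ^ (2 * r0 * r1 + 2 * r0 + 4) := by
    calc q * (R ^ (2 * r0 + 2) * (K ^ 2 * R ^ (2 * r0 * r1 + 1)))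
        ≤ R * (R ^ (2 * r0 + 2) * (K ^ 2 * R ^ (2 * r0 * r1 + 1))) := Nat.mul_le_mul_right _ hqR
      _ = K ^ 2 * R ^ (2 * r0 * r1 + 2 * r0 + 4) := by
        have e : 2 * r0 * r1 + 2 * r0 + 4 = 1 + (2 * r0 + 2) + (2 * r0 * r1 + 1) := by ring
        rw [e, pow_add, pow_add, pow_one]; ring
      _ ≤ K ^ (2 * r0 * r1 + 2 * r0 + 4) * R ^ (2 * r0 * r1 + 2 * r0 + 4) :=
        Nat.mul_le_mul_right _ (Nat.pow_le_pow_right hK (by omega))
      _ = _ := (mul_pow _ _ _).symm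
  have h2 : (q : ℝ) * ((R ^ (2 * r0 + 2) * (K ^ 2 * R ^ (2 * r0 * r1 + 1)) : ℕ) : ℝ) ≤
      ((K * R : ℕ) : ℝ) ^ (2 * r0 * r1 + 2 * r0 + 4) := by exact_mod_cast h1
  calc (q : ℝ) * (B0 * ((R ^ (2 * r0 + 2) * (K ^ 2 * R ^ (2 * r0 * r1 + 1)) : ℕ) : ℝ))
      = B0 * ((q : ℝ) * ((R ^ (2 * r0 + 2) * (K ^ 2 * R ^ (2 * r0 * r1 + 1)) : ℕ) : ℝ)) := by ring
    _ ≤ _ := mul_le_mul_of_nonneg_left h2 hB0

theorem sets_le {F : ℕ → ℝ} {B0 : ℝ} (hF : ∀ x, |F x| ≤ B0) {K r0 r1 R q : ℕ} (b j : ℕ)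
    {PP : Finset ℕ}
    (hK : 1 ≤ K) (hR : 2 ≤ R) (hq : 1 ≤ q) (hqR : q ≤ R)
    (hPP : ∀ p ∈ PP, p.Prime ∧ p ≤ R ∧ ¬ p ∣ K) {𝒮 : Finset (Finset ℕ)}
    (h𝒮 : ∀ S ∈ 𝒮, S ⊆ PP ∧ S.card ≤ r0 ∧ ∃ p ∈ S, ¬ p ∣ q) (a : ℕ) :
    |∑ S ∈ 𝒮, ∑ x ∈ (bl b j).filter (fun x => x % q = a), DS F K r1 b j S x (fun _ => x)| ≤
      B0 * ((R ^ (2 * r0 + 1) * (K ^ 2 * R ^ (2 * r0 * r1 + 1)) : ℕ) : ℝ) := by
  have hB0 : 0 ≤ B0 := (abs_nonneg _).trans (hF 0)
  have hsub : 𝒮 ⊆ PP.powerset.filter (fun S => S.card ≤ r0) := by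
    intro S hS
    rw [mem_filter, mem_powerset]
    exact ⟨(h𝒮 S hS).1, (h𝒮 S hS).2.1⟩
  have hcard : 𝒮.card ≤ R ^ (2 * r0 + 1) :=
    (card_le_card hsub).trans (card_small_le r0 R hR PP fun p hp => ⟨(hPP p hp).1, (hPP p hp).2.1⟩)
  refine (abs_sum_le_sum_abs _ _).trans ?_
  have h : ∀ S ∈ 𝒮, |∑ x ∈ (bl b j).filter (fun x => x % q = a), DS F K r1 b j S x (fun _ => x)| ≤
      B0 * ((K ^ 2 * R ^ (2 * r0 * r1 + 1) : ℕ) : ℝ) := by
    intro S hS
    obtain ⟨h1, h2, p0, h3, h4⟩ := h𝒮 S hS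
    exact abs_sum_DS_le hF b j hK (by omega) hq hqR (fun p hp => hPP p (h1 hp)) h2 h3 h4 a
  refine (sum_le_sum h).trans ?_
  rw [sum_const, nsmul_eq_mul]
  have h5 : ((𝒮.card * (K ^ 2 * R ^ (2 * r0 * r1 + 1)) : ℕ) : ℝ) ≤
      ((R ^ (2 * r0 + 1) * (K ^ 2 * R ^ (2 * r0 * r1 + 1)) : ℕ) : ℝ) := by
    exact_mod_cast Nat.mul_le_mul_right _ hcard
  calc (𝒮.card : ℝ) * (B0 * ((K ^ 2 * R ^ (2 * r0 * r1 + 1) : ℕ) : ℝ))
      = B0 * ((𝒮.card * (K ^ 2 * R ^ (2 * r0 * r1 + 1)) : ℕ) : ℝ) := by push_cast; ring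
    _ ≤ _ := mul_le_mul_of_nonneg_left h5 hB0

theorem gm_sum (F : ℕ → ℝ) (K r0 r1 b j q a : ℕ) (PP : Finset ℕ) :
    ∑ x ∈ (bl b j).filter (fun x => x % q = a), gm F K r0 r1 b PP x =
      ∑ S ∈ PP.powerset.filter (fun S => S.card ≤ r0),
        ∑ x ∈ (bl b j).filter (fun x => x % q = a), DS F K r1 b j S x (fun _ => x) := by
  rw [sum_comm]
  refine sum_congr rfl fun x hx => ?_
  unfold gm
  rw [bl_div (mem_filter.mp hx).1]

/-- the main term -/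
theorem main_term {F : ℕ → ℝ} {B0 : ℝ} (hF : ∀ x, |F x| ≤ B0) {K r1 q : ℕ} (b j : ℕ)
    {T : Finset ℕ} (hT : ∀ p ∈ T, p.Prime ∧ ¬ p ∣ K) (hK : 1 ≤ K)
    (hqM : q ∣ K * ∏ p ∈ T, p ^ r1) (a : ℕ) :
    |∑ x ∈ (bl b j).filter (fun x => x % q = a), F x - ∑ S ∈ T.powerset,
      ∑ x ∈ (bl b j).filter (fun x => x % q = a), DS F K r1 b j S x (fun _ => x)| ≤
      B0 * (((K * ∏ p ∈ T, p ^ r1) ^ 2 : ℕ) : ℝ) := by
  set M := K * ∏ p ∈ T, p ^ r1 with hM
  have hM1 : 1 ≤ M := Nat.mul_pos hK (Nat.pos_of_ne_zero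
    (prod_ne_zero_iff.mpr fun p hp => pow_ne_zero _ (hT p hp).1.ne_zero))
  have e1 : ∑ S ∈ T.powerset,
      ∑ x ∈ (bl b j).filter (fun x => x % q = a), DS F K r1 b j S x (fun _ => x) =
      (∑ y ∈ bl b j, F y * (if y % q = a then ∑ x ∈ bl b j, uf M y x else 0)) / 2 ^ b := by
    simp only [sum_DS]
    rw [← sum_div, sum_comm]
    congr 1
    refine sum_congr rfl fun y _ => ?_
    rw [← mul_sum, sum_comm]
    congr 1
    have e2 : ∀ x, ∑ S ∈ T.powerset, (if x % q = a then kf K r1 S y x else 0) =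
        if x % q = a then uf M y x else 0 := by
      intro x
      split_ifs
      · rw [sum_powerset_kf K r1 hT]
      · simp
    simp only [e2]
    have e3 : ∀ x, (if x % q = a then uf M y x else 0) = if y % q = a then uf M y x else 0 := by
      intro x
      by_cases h : y ≡ x [MOD M]
      · have h1 : y % q = x % q := h.of_dvd hqM
        rw [h1]
      · unfold uf
        simp [h]
    simp only [e3]
    split_ifs
    · rfl
    · simp
  have e4 : ∑ x ∈ (bl b j).filter (fun x => x % q = a), F x =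
      (∑ y ∈ bl b j, F y * (if y % q = a then (2:ℝ) ^ b else 0)) / 2 ^ b := by
    rw [sum_filter, sum_div]
    refine sum_congr rfl fun y _ => ?_
    split_ifs
    · field_simp
    · simp
  rw [e1, e4, ← sub_div, ← sum_sub_distrib]
  have e5 : ∀ y, F y * (if y % q = a then (2:ℝ) ^ b else 0) -
      F y * (if y % q = a then ∑ x ∈ bl b j, uf M y x else 0) =
      F y * (if y % q = a then -(∑ x ∈ bl b j, (uf M y x - 1)) else 0) := by
    intro y
    split_ifs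
    · rw [sum_sub_distrib, sum_const, nsmul_eq_mul, bl_card]; ring
    · ring
  simp only [e5]
  apply bl_sum_abs hF b j
  intro y
  have h0 : |∑ x ∈ bl b j, (uf M y x - 1)| ≤ (M : ℝ) * M := by
    rw [bl_eq]
    exact abs_sum_le hM1 (fun x => by rw [uf_per dvd_rfl]) (abs_uf_sub_one hM1 y) (sum_uf hM1 y) _ _
  split_ifs
  · rw [abs_neg]
    refine h0.trans (le_of_eq ?_)
    push_cast; ring
  · rw [abs_zero]; positivity

end B8

open B8

/-- the dense model has the same sums over progressions with a difference `≤ R` -/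
theorem gm_ap (r0 r1 : ℕ) (hr1 : 1 ≤ r1) : ∃ C : ℕ, ∀ (F : ℕ → ℝ) (B0 : ℝ) (K b j R q : ℕ)
    (PP : Finset ℕ), 1 ≤ K → 2 ≤ R → 1 ≤ q → q ≤ R → (∀ x, |F x| ≤ B0) →
    (∀ p ∈ PP, p.Prime ∧ p ≤ R ∧ ¬ p ∣ K) →
    q ∣ K * ∏ p ∈ PP.filter (fun p => p ∣ q), p ^ r1 → (PP.filter (fun p => p ∣ q)).card ≤ r0 →
    ∑ a ∈ range q, |∑ x ∈ (bl b j).filter (fun x => x % q = a), (F x - gm F K r0 r1 b PP x)| ≤
      B0 * ((K * R : ℕ) : ℝ) ^ C := by
  have _ := hr1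
  refine ⟨2 * r0 * r1 + 2 * r0 + 4, ?_⟩
  intro F B0 K b j R q PP hK hR hq hqR hF hPP hdvd hcard
  have hB0 : 0 ≤ B0 := (abs_nonneg _).trans (hF 0)
  apply total_le hB0 hK hqR
  intro a _
  set T := PP.filter (fun p => p ∣ q) with hT
  have hTs : T ⊆ PP := filter_subset _ _
  rw [sum_sub_distrib, gm_sum]
  have hsub : T.powerset ⊆ PP.powerset.filter (fun S => S.card ≤ r0) := by
    intro S hS
    rw [mem_powerset] at hS
    rw [mem_filter, mem_powerset]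
    exact ⟨hS.trans hTs, (card_le_card hS).trans hcard⟩
  rw [← sum_sdiff hsub]
  have h1 := main_term (r1 := r1) hF b j (T := T)
    (fun p hp => ⟨(hPP p (hTs hp)).1, (hPP p (hTs hp)).2.2⟩) hK hdvd a
  have h2 := sets_le (r0 := r0) (r1 := r1) hF b j hK hR hq hqR hPP
    (𝒮 := PP.powerset.filter (fun S => S.card ≤ r0) \ T.powerset) (by
      intro S hS
      rw [mem_sdiff, mem_filter, mem_powerset, mem_powerset] at hS
      refine ⟨hS.1.1, hS.1.2, ?_⟩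
      by_contra hcon
      push Not at hcon
      apply hS.2
      intro p hp
      rw [hT, mem_filter]
      exact ⟨hS.1.1 hp, hcon p hp⟩) a
  have h3 : ((K * ∏ p ∈ T, p ^ r1) ^ 2 : ℕ) ≤ K ^ 2 * R ^ (2 * r0 * r1 + 1) := by
    have h4 : ∏ p ∈ T, p ^ r1 ≤ R ^ (r0 * r1) :=
      prod_le (by omega) (fun p hp => (hPP p (hTs hp)).2.1) hcard
    calc (K * ∏ p ∈ T, p ^ r1) ^ 2 ≤ (K * R ^ (r0 * r1)) ^ 2 := by gcongr
      _ = K ^ 2 * R ^ (2 * r0 * r1) := by rw [mul_pow, ← pow_mul]; congr 2; ring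
      _ ≤ _ := Nat.mul_le_mul_left _ (Nat.pow_le_pow_right (by omega) (by omega))
  have h5 : K ^ 2 * R ^ (2 * r0 * r1 + 1) + R ^ (2 * r0 + 1) * (K ^ 2 * R ^ (2 * r0 * r1 + 1)) ≤
      R ^ (2 * r0 + 2) * (K ^ 2 * R ^ (2 * r0 * r1 + 1)) := by
    have h6 : 1 + R ^ (2 * r0 + 1) ≤ R ^ (2 * r0 + 2) := by
      have h7 : 1 ≤ R ^ (2 * r0 + 1) := Nat.one_le_pow _ _ (by omega)
      have h8 : R ^ (2 * r0 + 2) = R ^ (2 * r0 + 1) * R := pow_succ _ _
      rw [h8]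
      nlinarith
    calc _ = (1 + R ^ (2 * r0 + 1)) * (K ^ 2 * R ^ (2 * r0 * r1 + 1)) := by ring
      _ ≤ _ := Nat.mul_le_mul_right _ h6
  have h3' : B0 * (((K * ∏ p ∈ T, p ^ r1) ^ 2 : ℕ) : ℝ) ≤
      B0 * ((K ^ 2 * R ^ (2 * r0 * r1 + 1) : ℕ) : ℝ) :=
    mul_le_mul_of_nonneg_left (by exact_mod_cast h3) hB0
  have h5' : B0 * ((K ^ 2 * R ^ (2 * r0 * r1 + 1) : ℕ) : ℝ) +
      B0 * ((R ^ (2 * r0 + 1) * (K ^ 2 * R ^ (2 * r0 * r1 + 1)) : ℕ) : ℝ) ≤
      B0 * ((R ^ (2 * r0 + 2) * (K ^ 2 * R ^ (2 * r0 * r1 + 1)) : ℕ) : ℝ) := by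
    rw [← mul_add]
    apply mul_le_mul_of_nonneg_left _ hB0
    exact_mod_cast h5
  refine le_trans ?_ (h5'.trans' (add_le_add (h1.trans h3') h2))
  rw [sub_add_eq_sub_sub_swap]
  exact abs_sub _ _

/-- `Δ_∅ F` is the conditional expectation -/
theorem B8.DS_empty (F : ℕ → ℝ) (K r1 b x : ℕ) :
    DS F K r1 b (x / 2 ^ b) ∅ x (fun _ => x) = Fm F K b x := by
  unfold DS Fm cell
  rw [div_mul_eq_mul_div, mul_sum]
  congr 1
  refine sum_congr rfl fun y _ => ?_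
  rw [prod_empty, mul_one]
  by_cases h : y ≡ x [MOD K]
  · rw [if_pos h, if_pos ((ZMod.natCast_eq_natCast_iff _ _ _).mpr h), mul_comm]
  · rw [if_neg h, if_neg (fun h' => h ((ZMod.natCast_eq_natCast_iff _ _ _).mp h'))]
    simp

theorem gm_head (r0 r1 : ℕ) (hr1 : 1 ≤ r1) : ∃ C : ℕ, ∀ (F : ℕ → ℝ) (B0 : ℝ) (K b j R q : ℕ)
    (PP : Finset ℕ), 1 ≤ K → 2 ≤ R → 1 ≤ q → q ≤ R → (∀ x, |F x| ≤ B0) →
    (∀ p ∈ PP, p.Prime ∧ p ≤ R ∧ ¬ p ∣ K) → q ∣ K →
    ∑ a ∈ range q, |∑ x ∈ (bl b j).filter (fun x => x % q = a),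
      (gm F K r0 r1 b PP x - Fm F K b x)| ≤ B0 * ((K * R : ℕ) : ℝ) ^ C := by
  have _ := hr1
  refine ⟨2 * r0 * r1 + 2 * r0 + 4, ?_⟩
  intro F B0 K b j R q PP hK hR hq hqR hF hPP hdvd
  have hB0 : 0 ≤ B0 := (abs_nonneg _).trans (hF 0)
  apply total_le hB0 hK hqR
  intro a _
  rw [sum_sub_distrib, gm_sum]
  have hmem : (∅ : Finset ℕ) ∈ PP.powerset.filter (fun S => S.card ≤ r0) := by
    rw [mem_filter, mem_powerset]; simp
  rw [← sum_erase_add _ _ hmem]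
  have e1 : ∑ x ∈ (bl b j).filter (fun x => x % q = a), DS F K r1 b j ∅ x (fun _ => x) =
      ∑ x ∈ (bl b j).filter (fun x => x % q = a), Fm F K b x := by
    refine sum_congr rfl fun x hx => ?_
    rw [← DS_empty F K r1 b x, bl_div (mem_filter.mp hx).1]
  rw [e1, add_sub_cancel_right]
  refine (sets_le (r0 := r0) (r1 := r1) hF b j hK hR hq hqR hPP ?_ a).trans ?_
  · intro S hS
    rw [mem_erase, mem_filter, mem_powerset] at hS
    obtain ⟨p, hp⟩ := nonempty_iff_ne_empty.mpr hS.1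
    exact ⟨hS.2.1, hS.2.2, p, hp, fun h => (hPP p (hS.2.1 hp)).2.2 (h.trans hdvd)⟩
  · apply mul_le_mul_of_nonneg_left _ hB0
    have : R ^ (2 * r0 + 1) * (K ^ 2 * R ^ (2 * r0 * r1 + 1)) ≤
        R ^ (2 * r0 + 2) * (K ^ 2 * R ^ (2 * r0 * r1 + 1)) :=
      Nat.mul_le_mul_right _ (Nat.pow_le_pow_right (by omega) (by omega))
    exact_mod_cast this

end

end Pool.Agent.Helper67.NX2
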